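import Pool.Agent.helper71.DSW.SpecC

set_option autoImplicit false

namespace Pool.Agent.DSW

open Equiv Finset Function Pool.Agent.helper48.PP
open scoped ENNReal Classical

theorem PRD_fin (n : ℕ) : ∀ g : Fin n → ℕ → ℝ≥0∞,
    ∑' x : Fin n → ℕ, ∏ i, g i (x i) = ∏ i, ∑' j, g i j := by
  induction n with
  | zero =>
    intro g
    rw [tsum_eq_single (default : Fin 0 → ℕ) (fun b hb => absurd (Subsingleton.elim b _) hb)]
    simp
  | succ n ih =>
    intro g
    rw [← (Fin.consEquiv (fun _ : Fin (n + 1) => ℕ)).tsum_eq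
      (fun x : Fin (n + 1) → ℕ => ∏ i, g i (x i)), ENNReal.tsum_prod', Fin.prod_univ_succ]
    have h1 : ∀ a : ℕ, ∑' b : Fin n → ℕ,
        ∏ i, g i ((Fin.consEquiv (fun _ : Fin (n + 1) => ℕ)) (a, b) i) =
        g 0 a * ∏ i : Fin n, ∑' j, g i.succ j := by
      intro a
      rw [← ih (fun i => g i.succ), ← ENNReal.tsum_mul_left]
      refine tsum_congr fun b => ?_
      rw [Fin.prod_univ_succ]
      rfl
    rw [tsum_congr h1, ENNReal.tsum_mul_right]

theorem PRD : PRD_stmt := by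
  intro ι _ g
  have e : ι ≃ Fin (Fintype.card ι) := Fintype.equivFin ι
  have h := PRD_fin _ (fun i => g (e.symm i))
  rw [← (Equiv.arrowCongr e (Equiv.refl ℕ)).tsum_eq] at h
  have h2 : ∏ i, ∑' j, g i j = ∏ i, ∑' j, g (e.symm i) j :=
    (Equiv.prod_comp e.symm (fun i => ∑' j, g i j)).symm
  rw [h2, ← h]
  refine tsum_congr fun x => ?_
  rw [← Equiv.prod_comp e.symm (fun i => g i (x i))]
  rfl

end Pool.Agent.DSW
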