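import Pool.Agent.helper71.DSW.SpecC

set_option autoImplicit false

namespace Pool.Agent.DSW

open Equiv Finset Function Pool.Agent.helper48.PP
open scoped ENNReal Classical

theorem SGL_prod (hPRD : PRD_stmt) (ι : Type) [Fintype ι] (H : ℕ) (f : ι → ℕ → ℝ≥0∞) :
    Ex H (fun x : ι → ℕ => ∏ i, f i (x i)) = ∏ i, ∑' j, wt H j * f i j := by
  unfold Ex
  rw [← hPRD ι (fun i j => wt H j * f i j)]
  refine tsum_congr fun x => ?_
  rw [Finset.prod_mul_distrib]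

theorem SGL_one (hPRD : PRD_stmt) (hGEO : GEO_stmt) (ι : Type) [Fintype ι] (H : ℕ) (hH : 1 ≤ H) :
    Ex H (fun _ : ι → ℕ => 1) = 1 := by
  have h := SGL_prod hPRD ι H (fun _ _ => 1)
  simp only [Finset.prod_const_one, mul_one] at h
  rw [h]
  exact Finset.prod_eq_one fun i _ => (hGEO H hH).1

theorem SGL_main (hPRD : PRD_stmt) (hGEO : GEO_stmt) (ι : Type) [Fintype ι] (H : ℕ) (hH : 1 ≤ H)
    (p c : ℝ) (hp : 0 ≤ p) (hp1 : p ≤ 1) (n : (ι → ℕ) → ℕ)
    (hc : 0 ≤ c) (hn : Ex H (fun x => (n x : ℝ≥0∞)) = ENNReal.ofReal c) :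
    ENNReal.ofReal (1 - c * p) ≤ Ex H (fun x => ENNReal.ofReal ((1 - p) ^ n x)) := by
  have h1 : (1 : ℝ≥0∞) ≤ Ex H (fun x => ENNReal.ofReal ((1 - p) ^ n x)) +
      ENNReal.ofReal p * ENNReal.ofReal c := by
    rw [← hn, ← SGL_one hPRD hGEO ι H hH]
    unfold Ex
    rw [← ENNReal.tsum_mul_left, ← ENNReal.tsum_add]
    refine ENNReal.tsum_le_tsum fun x => ?_
    have h2 : (1 : ℝ≥0∞) ≤ ENNReal.ofReal ((1 - p) ^ n x) + ENNReal.ofReal p * (n x : ℝ≥0∞) := by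
      rw [← ENNReal.ofReal_natCast, ← ENNReal.ofReal_mul hp,
        ← ENNReal.ofReal_add (pow_nonneg (by linarith) _) (by positivity), ← ENNReal.ofReal_one]
      apply ENNReal.ofReal_le_ofReal
      have h3 := one_add_mul_le_pow (show (-2 : ℝ) ≤ -p by linarith) (n x)
      rw [← sub_eq_add_neg] at h3
      linarith
    calc (∏ i, wt H (x i)) * 1 ≤ (∏ i, wt H (x i)) *
          (ENNReal.ofReal ((1 - p) ^ n x) + ENNReal.ofReal p * (n x : ℝ≥0∞)) := by gcongr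
      _ = _ := by ring
  rw [ENNReal.ofReal_sub _ (by positivity), ENNReal.ofReal_one, tsub_le_iff_right, mul_comm c p,
    ENNReal.ofReal_mul hp]
  exact h1

theorem SGL (hPRD : PRD_stmt) (hGEO : GEO_stmt) : SGL_stmt := by
  intro H θ hH h0 h1
  have hH' : (1 : ℝ) ≤ H := by exact_mod_cast hH
  have hHpos : (0 : ℝ) < H := by linarith
  have hH2 : (1 : ℝ) ≤ (H : ℝ) ^ 2 := one_le_pow₀ hH'
  have hp : 0 ≤ θ / (H : ℝ) ^ 2 := by positivity
  have hp1 : θ / (H : ℝ) ^ 2 ≤ 1 := by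
    rw [div_le_one (by positivity)]
    linarith
  obtain ⟨g1, g2, -⟩ := hGEO H hH
  constructor
  · have h2 := SGL_main hPRD hGEO (Fin 1) H hH (θ / (H : ℝ) ^ 2) H hp hp1 (fun x => x 0) hHpos.le
      (by
        have h := SGL_prod hPRD (Fin 1) H (fun _ j => (j : ℝ≥0∞))
        simp only [Fin.prod_univ_one] at h
        rw [h, g2, ENNReal.ofReal_natCast])
    have e : (1 : ℝ) - θ / H = 1 - H * (θ / (H : ℝ) ^ 2) := by
      field_simp
    rw [e]
    exact h2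
  · have h2 := SGL_main hPRD hGEO (Fin 3) H hH (θ / (H : ℝ) ^ 2) (2 * (H : ℝ) ^ 2) hp hp1
      (fun x => x 0 * (x 1 + x 2)) (by positivity)
      (by
        have h3 := SGL_prod hPRD (Fin 3) H ![fun j => (j : ℝ≥0∞), fun j => (j : ℝ≥0∞), fun _ => 1]
        have h4 := SGL_prod hPRD (Fin 3) H ![fun j => (j : ℝ≥0∞), fun _ => 1, fun j => (j : ℝ≥0∞)]
        simp only [Fin.prod_univ_three, Matrix.cons_val_zero, Matrix.cons_val_one,
          Matrix.cons_val_two, Matrix.head_cons, Matrix.tail_cons, mul_one, g1, g2] at h3 h4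
        have h5 : Ex H (fun x : Fin 3 → ℕ => ((x 0 * (x 1 + x 2) : ℕ) : ℝ≥0∞)) =
            Ex H (fun x : Fin 3 → ℕ => (x 0 : ℝ≥0∞) * (x 1 : ℝ≥0∞)) +
            Ex H (fun x : Fin 3 → ℕ => (x 0 : ℝ≥0∞) * (x 2 : ℝ≥0∞)) := by
          unfold Ex
          rw [← ENNReal.tsum_add]
          refine tsum_congr fun x => ?_
          push_cast
          ring
        rw [h5, h3, h4, ENNReal.ofReal_mul (by norm_num), ENNReal.ofReal_pow hHpos.le,
          ENNReal.ofReal_natCast, ENNReal.ofReal_ofNat]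
        ring)
    have e : (1 : ℝ) - 2 * θ = 1 - 2 * (H : ℝ) ^ 2 * (θ / (H : ℝ) ^ 2) := by
      field_simp
    rw [e]
    exact h2

end Pool.Agent.DSW
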